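import Pool.Agent.V113.IntK.ExA

/-!
# `Int_K(A)` integrally closed does not imply `A = A'`

Question Q1 of MP_f9f43c_al has a negative answer: for the integrally closed Noetherian domain
`D = ℤ[t]`, all of whose residue fields at maximal ideals are finite, and
`A = ℤ[t][Y]/(Y² - t³)`, the ring `Int_K(A)` is `D[X]`, hence integrally closed, but `Y/t` is
integral over `D` and not in `A`. The definitions are in `Pool/Agent/V113/IntK/Defs.lean`.
-/

set_option autoImplicit false

open Polynomial Pool.Agent.V113.IntK

namespace Pool.Agent.Results.MP_f9f43c_al.ClosedNotPrime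

/-- There are an integrally closed Noetherian domain `D` (namely `ℤ[t]`) and a commutative
`D`-algebra `A`, free of rank two as a `D`-module, such that `Int_K(A)` is integrally closed, `K` the
fraction field of `D`, but some element of `K ⊗[D] A` is integral over `D` and not in `A`. -/
theorem result :
    ∃ (D : Type) (_ : CommRing D) (_ : IsDomain D) (A : Type) (_ : CommRing A) (_ : Algebra D A),
      IsIntegrallyClosed D ∧ IsNoetherianRing D ∧ Nonempty (D ≃+* ℤ[X]) ∧
      Nontrivial A ∧ Module.Finite D A ∧ Module.Free D A ∧ Module.finrank D A = 2 ∧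
      Module.IsTorsionFree D A ∧
      IsIntegrallyClosed (IntK D (FractionRing D) A) ∧
      ∃ b ∈ APrime D (FractionRing D) A, b ∉ Set.range (inc D (FractionRing D) A) :=
  ⟨ℤ[X], inferInstance, inferInstance, AA, inferInstance, inferInstance, inferInstance,
    inferInstance, ⟨RingEquiv.refl _⟩, inferInstance, inferInstance, inferInstance,
    QuadraticAlgebra.finrank_eq_two _ _, inferInstance, closed_AA _, exists_bad _⟩

end Pool.Agent.Results.MP_f9f43c_al.ClosedNotPrime
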